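import Pool.Agent.J6H11.Ask.Dist

/-!
# 3SUM: adaptive linear sketches and comparisons with two-sided error

The input consists of `n` distinct integers of absolute value at most `N` (`Valid`); is one of them
the sum of two others (`Solvable`)? We consider adaptive programs (`Prog`, decision trees of any shape
and size) with the following queries.

* Free: all digits of each number apart from a factor `4`, at any place (`x mod p` and
  `⌊x / (4 p)⌋`; for `p = 2 ^ e` these are all binary digits but two), and the signs of all
  `α x_i + β x_j` with `|α|, |β| ≤ K`.
* A query `triple` tells the signs of all `α x_i + β x_j + γ x_k` with `|α|, |β|, |γ| ≤ K`. Cost `1`.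
* A query `read` tells the number `x_i`. Cost `n`.
* A query `sketch` tells `φ x`, where `φ` is an arbitrary homomorphism from `ℤ ^ n` to an abelian
  group, for instance the vector of the values of some linear forms, each modulo an arbitrary number.
  Cost `n` times the number of bits (the binary logarithm of the number of values of `φ`).

Cost `n ^ 2` is sufficient. We show that `n ^ (2 - o (1))` is necessary for `K ≤ n ^ o (1)` in each
universe `N ≥ n ^ (1 + o (1))`, in particular for `N = n ^ 3`, for random programs with two-sided error
`1 / 3`, and also on average: there is a distribution on the instances, independent of the program,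
such that each program whose expected cost is at most `n ^ (2 - ε)` finds the right answer with
probability at most `1 / 2 + o (1)` only (a saving `n ^ (-δ)` for cost `n ^ (2 - ε - δ)`). So
`n ^ (1 - ε)` bits of adaptively chosen linear sketches do not help.

Proof. A Behrend set gives numbers `a_i`, `b_j`, `c_k` and `n ^ (2 - o (1))` triples
`t = (a_i, b_j, c_{i + j})` with `a_i + b_j - c_{i + j} = 3` such that the signs of all other forms
in at most three numbers do not change if the numbers change by at most `1` (library
`Pool.Agent.J6H11.Sk3`, see `ComparisonsAndSketches`). Now let `h` be uniformly distributed on
`{0, 1} ^ n` and change each number by `h_v` (towards larger `a_i + b_j - c_k`). This gives an instance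
`X h` without solution. For a triple `t`, the instance `Y t h` is obtained if we replace the changes of
the three numbers of `t` by `- 1`; it has the solution `t` and no other one. All free queries have
the same answers for `X h` and `Y t h`, and so does each query `triple` other than `t`. For each path of
the program the `h` for which `X h` follows the path (apart from the queries `triple`) form a set
`H = {h : Φ h = g}` for a homomorphism `Φ`, and those for which `Y t h` follows it are the `h` with
`Φ h' = g`, where `h'` is obtained from `h` by putting `- 1` at the three places of `t`. We need that
the latter set is not much smaller than `H`, for most `t` and on average over the paths. Take `t` from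
an induced matching, let `p u` and `q u` be the numbers of partial vectors `h` before the block `t` of
three places and after it with value `u` of `Φ`; then the number of the `h` in question is of the form
`∑ p u * q (g - u - θ)` with different `θ`, and
`∑ p u * q (g - θ - u) ≥ ∑ p u * q (g - u) - error`, where the error consists of correlations
of the differences of `H` in the block with signs that depend only on the places before the block, or only on
those after it. By a level-one inequality for martingale differences (proved here from a moment
generating function bound) the sum of these errors over a matching with `M` triples is at most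
`|H| (r M + O (log (2 ^ n / |H|) / r))` for each `r > 0` (theorem `matching_le`). We apply this to the
`O (n)` induced matchings of triples with fixed difference `i - j`, and by the chain rule for the entropy
the average of `log (2 ^ n / |H|)` is at most the expected number of sketch bits (and of `h_v` that
were read).

Remark (not formalized): the analogous statement for queries `poly` of `ComparisonsAndSketches` is
false with two-sided error, since a random weighted number of solutions modulo 2 decides the
problem.
-/

set_option autoImplicit false

namespace Pool.Agent.Results.MP_13bec0_lc.AdaptiveSketches

open Pool.Agent.J6H11.Sk3 (Valid Solvable)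
open Pool.Agent.J6H11.Ask (Prog)

open Classical in
/-- Let `n` be sufficiently large for `ε > 0`, let `K ≤ n ^ δ`, `p ≥ 1` and `N ≥ p n ^ (1 + ε)`. There
is a finite probability space of instances `X i` (with weights `w i`) such that

* for each program the probability that its answer for the random instance is right is at most
  `1 / 2 + n ^ (-δ) + E / n ^ (2 - ε)`, where `E` is the expected cost for the random instance,
* for all random programs `P ω` whose answer is right with probability at least `2 / 3` for each
  instance, the expected cost for the random instance is at least `n ^ (2 - ε)`. -/
theorem result : ∀ ε : ℝ, 0 < ε → ∃ δ : ℝ, 0 < δ ∧ ∃ n₀ : ℕ,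
    ∀ n N K p : ℕ, n₀ ≤ n → (K : ℝ) ≤ (n : ℝ) ^ δ → 1 ≤ p → (p : ℝ) * (n : ℝ) ^ (1 + ε) ≤ N →
    ∃ (I : Type) (_ : Fintype I) (w : I → ℝ) (X : I → Fin n → ℤ), (∀ i, 0 ≤ w i) ∧
      ∑ i, w i = 1 ∧ (∀ i, Valid N (X i)) ∧
      (∀ P : Prog n,
        ∑ i, w i * (if P.eval K p (X i) = decide (Solvable (X i)) then 1 else 0) ≤
          1 / 2 + (n : ℝ) ^ (-δ) + (∑ i, w i * P.cost K p N (X i)) / (n : ℝ) ^ (2 - ε)) ∧
      ∀ (Ω : Type) [Fintype Ω] (μ : Ω → ℝ), (∀ ω, 0 ≤ μ ω) → ∑ ω, μ ω = 1 → ∀ P : Ω → Prog n,
      (∀ x, Valid N x →
          2 / 3 ≤ ∑ ω, μ ω * (if (P ω).eval K p x = decide (Solvable x) then 1 else 0)) →
        (n : ℝ) ^ (2 - ε) ≤ ∑ i, w i * ∑ ω, μ ω * (P ω).cost K p N (X i) :=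
  fun ε hε => Pool.Agent.J6H11.Ask.dist ε hε

end Pool.Agent.Results.MP_13bec0_lc.AdaptiveSketches
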