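import Pool.Agent.J6H11.Sk3.Main

/-!
# 3SUM: comparisons and algebraic sketches

The input consists of `n` distinct integers of absolute value at most `N` (`Valid`); is one of them
the sum of two others (`Solvable`)? We consider adaptive programs (`Prog`, decision trees of any shape
and size) with the following queries.

* Free: all digits of each number apart from a factor `4`, at any place (`x mod p` and
  `⌊x / (4 p)⌋`; for `p = 2 ^ e` these are all binary digits but two), and the signs of all
  `α x_i + β x_j` with `|α|, |β| ≤ K`.
* A query `triple` tells the signs of all `α x_i + β x_j + γ x_k` with `|α|, |β|, |γ| ≤ K`.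
* A query `read` tells a number completely.
* A query `sketch` tells the value of an arbitrary homomorphism from `ℤ ^ n` to an abelian group, for
  instance of a linear form in all of the numbers modulo an arbitrary number. It costs as many bits
  as the binary logarithm of the number of its values.
* A query `poly` tells the sum modulo `q` (a fixed prime) of arbitrary functions of `D` of the numbers,
  for instance, for `D = 3`, the number of solutions modulo `q`, or a weighted number of solutions.
  It costs `(q - 1) D` bits.

The cost (`Prog.cost`) is the number of queries `triple`, and `n` for each read number and each bit; so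
cost `n ^ 2` is sufficient for everything. We show that `n ^ (2 - o (1))` is necessary for `K ≤ n ^ o (1)`
in each universe `N ≥ n ^ (1 + o (1))`, in particular for `N = n ^ 3`:

1. There is an instance `X` without solution such that programs which never say no if there is a
   solution have expected cost at least `n ^ (2 - ε)` for the input `X` times the probability that
   they say no. This holds for algorithms that are always correct, for algorithms that are correct
   with probability 1/2 if there is no solution, and for nondeterministic proofs that there is no
   solution.
2. Without sketch bits this holds also for programs with two-sided error `1 / 3`.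

Remark (not formalized): statement 1 is false for two-sided error, since a random weighted number of
solutions modulo 2 (`D = 3`) decides the problem then.

Proof. A Behrend set `S ⊆ {0, …, m - 1}` without convex relations with denominator at most `K` gives
numbers `a_i`, `b_j`, `c_k` for `i, j ∈ S`, `k ∈ S + τ` with `a_i + b_j - c_k = 3` if `k = i + j`, such
that the signs of all other forms in at most three numbers do not change if the numbers change by
at most 1. There are `n ^ (2 - o (1))` triples `t = (i, j, i + j)`, and for fixed `s` those with
`i - j = s` form an induced matching. If few triples are queried then there is `s` such that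
`n ^ (1 - o (1))` of the triples with `i - j = s` are untouched. For each set `J` of them we decrease
`a_i` and `b_j` and increase `c_k` for the triples of `J` (vector `v_J`). If there are few sketch bits
then there are `J`, `J'` such that all sketches have the same value on `v_J` and `v_{J'}`, and
such that all queries `poly` have the same answers for `X` and `X + v_J - v_{J'}`, by a rank argument
(the condition is a polynomial of small degree modulo `q` in the indicator variables of `J'`). In
`X + v_J - v_{J'}` exactly the triples in `J \ J'` are solutions, and the program does not see them.
-/

set_option autoImplicit false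

namespace Pool.Agent.Results.MP_13bec0_lc.ComparisonsAndSketches

open Pool.Agent.J6H11.Sk3

open Classical in
/-- Let `n` be sufficiently large for `ε > 0`, let `K ≤ n ^ δ`, `p ≥ 1` and `N ≥ p n ^ (1 + ε)`, and
let `q` be a prime. There is an instance `X` without solution such that for all random programs
`P ω`:
1. if they never say no for instances with a solution then `n ^ (2 - ε)` times the probability that
they say no for `X` is at most the expected cost for `X`;
2. if the answer is right with probability at least `2 / 3` for each instance and there are no sketch
bits for `X` then the expected cost for `X` is at least `n ^ (2 - ε)`. -/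
theorem result : ∀ ε : ℝ, 0 < ε → ∃ δ : ℝ, 0 < δ ∧ ∃ n₀ : ℕ,
    ∀ n N K p q : ℕ, n₀ ≤ n → (K : ℝ) ≤ (n : ℝ) ^ δ → 1 ≤ p → (p : ℝ) * (n : ℝ) ^ (1 + ε) ≤ N →
    q.Prime → ∃ X : Fin n → ℤ, Valid N X ∧ ¬ Solvable X ∧
      ∀ (Ω : Type) [Fintype Ω] (μ : Ω → ℝ), (∀ ω, 0 ≤ μ ω) → ∑ ω, μ ω = 1 → ∀ P : Ω → Prog n q,
      ((∀ ω, μ ω ≠ 0 → ∀ x, Valid N x → Solvable x → (P ω).eval K p x = true) →
        (n : ℝ) ^ (2 - ε) * ∑ ω, μ ω * (if (P ω).eval K p X = false then 1 else 0) ≤
          ∑ ω, μ ω * (P ω).cost K p N X) ∧
      ((∀ x, Valid N x →
          2 / 3 ≤ ∑ ω, μ ω * (if (P ω).eval K p x = decide (Solvable x) then 1 else 0)) →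
        (∀ ω, (P ω).bits K p N X = 0) →
        (n : ℝ) ^ (2 - ε) ≤ ∑ ω, μ ω * (P ω).cost K p N X) :=
  fun ε hε => main ε hε

end Pool.Agent.Results.MP_13bec0_lc.ComparisonsAndSketches
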