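import Mathlib
import Pool.Agent.J6H71.Sum3.Final

/-!
# 3SUM: generic group programs with a free dictionary

The input consists of `n` distinct integers of absolute value at most `N` (`Valid`); is one of them
the sum of two others (`HasSum`)? A program (`Prog`) does not see the numbers. It may compute the values
of arbitrary affine forms in all of the `n` numbers, with arbitrary real coefficients, one after the
other, and it is told for each new value whether, and where, the same value has been computed before.
So it has a dictionary of all computed values, and lookups are free. Only the number of computed values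
is counted; the next form and the answer may depend in an arbitrary way on everything known so far, and
on random bits.

We show: if random programs decide 3SUM for all `n` distinct integers between `- N` and `N`, where
`N ≥ n ^ 3`, then the expected number of computed values is at least
`min (√N / 60, n ^ 2 / (36000 (log₂ n) ^ 2))`. For the universe of this problem, `N = n ^ 3`, this is
`n ^ (3 / 2)` up to a constant, and for `N ≥ n ^ 4` it is `n ^ (2 - o (1))`. If the programs may err
with probability `1 / 3` then a similar bound holds for the greatest number of values. All `n (n - 1) / 2`
sums and the `n` numbers themselves are sufficient.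

Proof. The random instance consists of three classes of `m` numbers, `16 u_i + 1`, `16 v_j + 4`,
`16 w_k + 5`, and of fixed other numbers; a solution is planted by `w_k = u_i + v_j`. The forms are
chosen as if two values agree only if the forms are the same. If `N` is much larger than `T ^ 2`, where
`T` is the number of values, then this is true with and without a planted solution, unless two of the
forms differ by a multiple of `u_i + v_j - w_k`. So we have to bound the number of the triples
`(i, j, k)` such that two of `T` vectors differ in the coordinates `i`, `j` and `k` only. For each class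
there are sets `M p` of at most `log₂ T` coordinates for all of the vectors `p` such that if `p` and `q`
differ in one coordinate of the class only then it belongs to `M p` or `M q` (induction: split the
family of vectors by a coordinate and charge it to the smaller parts). So two of `i`, `j`, `k` belong to
the sets of the same vector, and there are at most `3 T (log₂ T) ^ 2 m` triples, instead of `m ^ 3`.
-/

set_option autoImplicit false

namespace Pool.Agent.Results.MP_13bec0_lc.GenericGroupPrograms

open Pool.Agent.J6H71.Sum3

open Classical in
/-- Let `n ≥ 1000`, `N ≥ n ^ 3`, and let `P ω` be random programs.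
1. If for each instance the probability is at least `2 / 3` that the program gives the right answer
after it has computed at most `T` values, then `N ≤ 400 T ^ 2` or
`n ^ 2 ≤ 12000 T (log₂ n) ^ 2`.
2. If the programs always give the right answer, and the expected number of computed values is at most
`E` for each instance, then `N ≤ 3600 E ^ 2` or `n ^ 2 ≤ 36000 E (log₂ n) ^ 2`. -/
theorem result : ∀ n N : ℕ, 1000 ≤ n → n ^ 3 ≤ N →
    ∀ (Ω : Type) [Fintype Ω] (μ : Ω → ℝ), (∀ ω, 0 ≤ μ ω) → ∑ ω, μ ω = 1 → ∀ P : Ω → Prog n,
    (∀ T : ℕ, (∀ x, Valid n N x → 2 / 3 ≤ ∑ ω, μ ω *
        (if (P ω).Within x T (decide (HasSum x)) then (1 : ℝ) else 0)) →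
      (N : ℝ) ≤ 400 * T ^ 2 ∨ (n : ℝ) ^ 2 ≤ 12000 * (T * (Nat.log 2 n) ^ 2)) ∧
    (∀ E : ℝ, (∀ x, Valid n N x → ∃ τ : Ω → ℕ,
        (∀ ω, (P ω).Answers x (τ ω) (decide (HasSum x))) ∧ ∑ ω, μ ω * τ ω ≤ E) →
      (N : ℝ) ≤ 3600 * E ^ 2 ∨ (n : ℝ) ^ 2 ≤ 36000 * (E * (Nat.log 2 n) ^ 2)) :=
  fun _ _ hn hN Ω _ μ h0 h1 P =>
    ⟨fun T hT => bound_T' hn hN Ω μ h0 h1 P T hT, fun E hE => bound_E hn hN Ω μ h0 h1 P E hE⟩

end Pool.Agent.Results.MP_13bec0_lc.GenericGroupPrograms
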