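import Mathlib
import Pool.Agent.J6H71.Sum3L.Final

/-!
# 3SUM: programs which compute polynomials in few of the numbers

The input consists of `n` distinct integers of absolute value at most `N` (`Valid`); is one of them
the sum of two others (`HasSum`)? A program (`LProg`) computes the values of real functions of the
input, one after the other, and it is told for each new value whether, and where, the same value has been
computed before. So it has a dictionary of all computed values, and lookups are free. Each function
depends on at most `r` of the numbers (`Local`), and any two of them agree on each line of the space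
everywhere or in at most `Δ` points (`Tame`); this holds for all polynomials of degree at most `Δ` with at
most `r` variables. Only the number of computed values is counted; the next function and the answer may
depend in an arbitrary way on everything known so far, and on random bits.

We show: if random programs decide 3SUM for all `n` distinct integers between `- N` and `N`, where
`N ≥ n ^ 3`, then the expected number `E` of computed values satisfies `n ^ 2 ≤ 3600 r ^ 2 E` or
`n N ≤ 1530000 r Δ E ^ 2`. For the universe of this problem, `N = n ^ 3`, this means that `E` is at least
of the order `n ^ 2 / (r ^ 2 + √(r Δ))`, so `n ^ (2 - o (1))` if `r` and `Δ` are `n ^ o (1)`, although a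
program with `n ^ 2` values gets to know the results of `n ^ 4` equality tests, and many of them are
positive by chance. If the programs may err with probability `1 / 3` then a similar bound holds for the
greatest number of values. With `r = 2`, `Δ = 1` about `n ^ 2 / 2` values (all sums) are sufficient.

Proof. The random instance consists of three classes of `m` numbers, `16 u_i + 1`, `16 v_j + 4`,
`16 w_k + 5`, and of fixed other numbers; a solution is planted by `w_k = u_i + v_j`, where `i`, `j`, `k`
are random. We hide only the three numbers `u_i`, `v_j`, `w_k`, and consider the run of the program in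
which two values are considered to be equal only if they are the same functions of the three hidden
numbers. It does not depend on them. We follow it as long as no value depends on two hidden numbers and
at most `K` of the values depend on hidden numbers. Only `K T` pairs of values can agree by chance, and
this holds for the planted instances, too: two different functions of one variable each are different on
the plane `w_k = u_i + v_j`. So with high probability the two real runs agree with the formal one as long
as we follow it. In the run on the random instance, which does not depend on `i`, `j`, `k`, few of the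
values depend on hidden numbers, and with high probability none depends on two of them.
-/

set_option autoImplicit false

namespace Pool.Agent.Results.MP_13bec0_lc.LocalRingPrograms

open Pool.Agent.J6H71.Sum3 (Valid)
open Pool.Agent.J6H71.Sum3L

open Classical in
/-- Let `n ≥ 1000`, `N ≥ n ^ 3`, and let `P ω` be random programs which compute the values of functions
each of which depends on at most `r` numbers, and any two of which agree on each line everywhere or in at
most `Δ` points.
1. If for each instance the probability is at least `2 / 3` that the program gives the right answer
after it has computed at most `T` values, then `n ^ 2 ≤ 1200 r ^ 2 T` or `n N ≤ 170000 r Δ T ^ 2`.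
2. If the programs always give the right answer, and the expected number of computed values is at most
`E` for each instance, then `n ^ 2 ≤ 3600 r ^ 2 E` or `n N ≤ 1530000 r Δ E ^ 2`.
The conditions on the functions hold for polynomials in at most `r` variables of degree at most `Δ`. -/
theorem result (n N r Δ : ℕ) (hn : 1000 ≤ n) (hN : n ^ 3 ≤ N) :
    (∀ (Ω : Type) [Fintype Ω] (μ : Ω → ℝ), (∀ ω, 0 ≤ μ ω) → ∑ ω, μ ω = 1 → ∀ P : Ω → LProg n,
      (∀ ω τ, Local r ((P ω).fn τ)) → (∀ ω τ τ', Tame Δ ((P ω).fn τ) ((P ω).fn τ')) →
      (∀ T : ℕ, (∀ x, Valid n N x → 2 / 3 ≤ ∑ ω, μ ω *
          (if (P ω).Within x T (decide (Pool.Agent.J6H71.Sum3.HasSum x)) then (1 : ℝ) else 0)) →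
        (n : ℝ) ^ 2 ≤ 1200 * (r ^ 2 * T) ∨ (n : ℝ) * N ≤ 170000 * (r * Δ * T ^ 2)) ∧
      (∀ E : ℝ, (∀ x, Valid n N x → ∃ τ : Ω → ℕ,
          (∀ ω, (P ω).Answers x (τ ω) (decide (Pool.Agent.J6H71.Sum3.HasSum x))) ∧
          ∑ ω, μ ω * τ ω ≤ E) →
        (n : ℝ) ^ 2 ≤ 3600 * (r ^ 2 * E) ∨ (n : ℝ) * N ≤ 1530000 * (r * Δ * E ^ 2))) ∧
    (∀ p q : MvPolynomial (Fin n) ℝ, p.vars.card ≤ r → p.totalDegree ≤ Δ → q.totalDegree ≤ Δ →
      Local r (fun x => MvPolynomial.eval x p) ∧
      Tame Δ (fun x => MvPolynomial.eval x p) (fun x => MvPolynomial.eval x q)) :=
  ⟨fun Ω _ μ h0 h1 P h2 h3 =>
    ⟨fun T hT => bound_T hn hN Ω μ h0 h1 P r Δ T h2 h3 hT,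
      fun E hE => bound_E hn hN Ω μ h0 h1 P r Δ E h2 h3 hE⟩,
    fun p q h1 h2 h3 => ⟨local_poly r p h1, tame_poly Δ p q h2 h3⟩⟩

end Pool.Agent.Results.MP_13bec0_lc.LocalRingPrograms
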